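import Pool.Agent.Run7.h630.WL.Defs
import Pool.Agent.Run7.h897.ST.Bri
import Pool.Agent.Run7.h871.YM.Crit
import Pool.Agent.Run7.h871.YM.Pair
import Pool.Agent.Run7.h871.YM.Upper
import Pool.Agent.Run7.h182.Wl
import Pool.Agent.Run7.h182.UnqZ
import Pool.Agent.Run7.h182.ExtL
import Pool.Agent.Run7.h4.YM.Sys

/-!
# Existence of the thermodynamic limit
-/

open MeasureTheory Matrix Filter Topology
open Pool.Agent.H906R3.YM (UN mt)
open Pool.Agent.Run7.h897 (TW.XT TW.rate TW.Cn TW.CrS)
open Pool.Agent.Run7.h897.FS (PM BM)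
open Pool.Agent.Run7.h897.ST (S4 S6 phi phi_cont phi_symm_cont mu6 mu6_haar mu6_prob cfE cfE_mp
  act_eq siE lkE)
open Pool.Agent.Run7.h871.TC (wE)
open Run7.h4.YM

namespace Run7.h630.WL

set_option linter.unusedSectionVars false
set_option linter.style.haveILetI false

noncomputable section

variable {N l : ℕ} [NeZero N] [NeZero l] [MeasurableSpace (S4 N)] [BorelSpace (S4 N)]
  [MeasurableSpace (S6 N)] [BorelSpace (S6 N)]

/-- the links of the infinite lattice in the two models -/
def lz (l : ℕ) : LinkZ l ≃ Pool.Agent.Run7.h897.TW.LkZ l where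
  toFun e := (((e.2.1, e.2.2.1), e.2.2.2), e.1)
  invFun e := (e.2, e.1.1.1, e.1.1.2, e.1.2)
  left_inv _ := rfl
  right_inv _ := rfl

/-- an observable in the other model -/
def F6 (F : (LinkZ l → SU N) → ℝ) (V : Pool.Agent.Run7.h897.TW.LkZ l → S6 N) : ℝ :=
  F fun e => (phi N).symm (V (lz l e))

lemma F6_cont {F : (LinkZ l → SU N) → ℝ} (hF : Continuous F) : Continuous (F6 F) :=
  hF.comp (continuous_pi fun _ => (phi_symm_cont N).comp (continuous_apply _))

lemma F6_per (F : (LinkZ l → SU N) → ℝ) {n L : ℕ} (U : Link n L l → SU N) :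
    F6 F (Pool.Agent.Run7.h897.TW.perZ (cfE U)) = F (per U) := by
  unfold F6
  congr 1

lemma twist2_zero {n L : ℕ} (k : ℕ) (x : Site n L l) (i j : Fin 4) :
    Run7.h4.VS.twist2 N k 0 x i j = twist N k x i j := by
  unfold Run7.h4.VS.twist2 twist
  by_cases h : i = 2 ∧ j = 3 ∧ x.2.2 = 0
  · rw [if_pos h, if_pos h]
  · rw [if_neg h, if_neg h]
    simp

lemma action2_zero {n L : ℕ} [NeZero n] [NeZero L] (k : ℕ) (U : Link n L l → SU N) :
    Run7.h4.VS.action2 k 0 U = action k U := by
  unfold Run7.h4.VS.action2 action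
  simp only [twist2_zero]

lemma int_cf {n L : ℕ} [NeZero n] [NeZero L] (μ : Measure (SU N)) [IsProbabilityMeasure μ]
    {g : (Pool.Agent.Run7.h897.TW.Lk n L l → S6 N) → ℝ} (hg : Measurable g) :
    ∫ y, g y ∂(PM (mu6 μ) (Pool.Agent.Run7.h897.TW.Lk n L l)) =
      ∫ U : Link n L l → SU N, g (cfE U) ∂(Measure.pi fun _ => μ) := by
  haveI := mu6_prob μ
  have h1 := cfE_mp (N := N) (a := n) (b := L) (l := l) μ
  rw [← h1.map_eq, integral_map h1.measurable.aemeasurable hg.aestronglyMeasurable]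

/-- the expectations in the two models -/
theorem expect_eq {n L : ℕ} [NeZero n] [NeZero L] (μ : Measure (SU N)) [IsProbabilityMeasure μ]
    (k : ℕ) (β : ℝ) {F : (LinkZ l → SU N) → ℝ} (hF : Continuous F) :
    expect μ k β (fun U : Link n L l → SU N => F (per U)) =
      TW.XT (mu6 μ) (wE N l k β) (fun U : Pool.Agent.Run7.h897.TW.Lk n L l → S6 N =>
        F6 F (Pool.Agent.Run7.h897.TW.perZ U)) := by
  haveI := mu6_prob μ
  have hsj : Pool.Agent.Run7.h897.TW.sj n L ((0 : ℕ) : ZMod N) = fun _ => 0 := by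
    funext u
    unfold Pool.Agent.Run7.h897.TW.sj
    split_ifs <;> simp
  have hw : ∀ U : Link n L l → SU N,
      Pool.Agent.Run7.h897.TW.wS (wE N l k β) (fun _ => 0) (cfE U) =
        Real.exp (-(β * action k U)) := by
    intro U
    have := act_eq k 0 β U
    rw [hsj, action2_zero] at this
    exact this
  have hm : Measurable fun U : Pool.Agent.Run7.h897.TW.Lk n L l → S6 N =>
      F6 F (Pool.Agent.Run7.h897.TW.perZ U) :=
    (F6_cont hF).measurable.comp Pool.Agent.Run7.h897.TW.perZ_meas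
  have hwm : Measurable fun U : Pool.Agent.Run7.h897.TW.Lk n L l → S6 N =>
      Pool.Agent.Run7.h897.TW.wS (wE N l k β) (fun _ => 0) U :=
    (Pool.Agent.Run7.h897.TW.wS_bm (Pool.Agent.Run7.h871.TC.wE_bd β) _).1
  have e1 := int_cf μ (hm.mul hwm)
  have e2 := int_cf μ hwm
  simp only [Pi.mul_apply, F6_per, hw] at e1 e2
  unfold expect TW.XT
  rw [e1, e2]

/-- convergence of the expectations of the bounded local observables -/
def Cau (μ : Measure (SU N)) (k : ℕ) (β : ℝ) (l : ℕ) [NeZero l] : Prop :=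
  ∀ (R : ℕ) (η : ℝ), 0 < η → ∃ n₀ : ℕ, ∀ F : (LinkZ l → SU N) → ℝ, Continuous F →
    (∀ V, |F V| ≤ 1) → (∀ V V' : LinkZ l → SU N,
      (∀ e : LinkZ l, |e.2.1| ≤ R → |e.2.2.1| ≤ R → V e = V' e) → F V = F V') →
    ∀ p q p' q' : ℕ, n₀ ≤ p → n₀ ≤ q → n₀ ≤ p' → n₀ ≤ q' →
      |expect μ k β (fun U : Link (2 * (p + 1)) (2 * (q + 1)) l → SU N => F (per U)) -
        expect μ k β (fun U : Link (2 * (p' + 1)) (2 * (q' + 1)) l → SU N => F (per U))| ≤ η

lemma cau (μ : Measure (SU N)) [IsProbabilityMeasure μ] [μ.IsHaarMeasure] {k : ℕ} {β : ℝ}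
    {z : ZMod N → S6 N} (hz : TW.Cn (wE N l k β) z) {a : ℕ} (ha : 1 ≤ a) {s : ℝ} (hs0 : 0 < s)
    (hs : s ≤ 1 / 2) (hcr : TW.CrS (mu6 μ) (wE N l k β) a s) : Cau μ k β l := by
  haveI := mu6_prob μ
  haveI := mu6_haar μ
  haveI := Pool.Agent.Run7.h897.ST.right_inv'' (mu6 μ)
  haveI := Pool.Agent.Run7.h897.ST.inv_inv'' (mu6 μ)
  intro R η hη
  obtain ⟨n₀, hn₀⟩ := Run7.h182.Unq.XT_cauchyZ (μ := mu6 μ)
    (Pool.Agent.Run7.h871.TC.wE_bd β) (Pool.Agent.Run7.h871.TC.wE_sy β) hz ha hs0 hs hcr R hη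
  refine ⟨n₀, fun F hF h1 hloc p q p' q' hp hq hp' hq' => ?_⟩
  rw [expect_eq μ k β hF, expect_eq μ k β hF]
  exact hn₀ (F6 F) (F6_cont hF).measurable (fun V => h1 _)
    (fun V V' h => hloc _ _ fun e h1 h2 => by rw [h (lz l e) h1 h2]) _ _ _ _ (by omega) (by omega)
    (by omega) (by omega) (even_two_mul _) (even_two_mul _) (even_two_mul _) (even_two_mul _)

lemma per_cont {n L : ℕ} : Continuous (per : (Link n L l → SU N) → LinkZ l → SU N) :=
  continuous_pi fun _ => continuous_apply _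

/-- the law of the periodic extension -/
lemma exists_law (μ : Measure (SU N)) [IsProbabilityMeasure μ] (n L k : ℕ) [NeZero n] [NeZero L]
    (β : ℝ) : ∃ P : ProbabilityMeasure (LinkZ l → SU N), ∀ F : (LinkZ l → SU N) → ℝ,
      Continuous F → ∫ V, F V ∂(P : Measure (LinkZ l → SU N)) =
        expect μ k β (fun U : Link n L l → SU N => F (per U)) := by
  have hper : Continuous (per : (Link n L l → SU N) → LinkZ l → SU N) := per_cont
  have hint : Integrable (fun U : Link n L l → SU N =>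
      Real.exp (-(β * action k U))) (Measure.pi fun _ => μ) := by
    have hc : Continuous fun U : Link n L l → SU N => Real.exp (-(β * action k U)) :=
      Real.continuous_exp.comp ((continuous_const.mul (cont_action k)).neg)
    exact hc.integrable_of_hasCompactSupport (HasCompactSupport.of_compactSpace _)
  have h1 := isProbabilityMeasure_tilted
    (f := fun U : Link n L l → SU N => -(β * action k U)) hint
  refine ⟨⟨((Measure.pi fun _ => μ).tilted fun U : Link n L l → SU N =>
    -(β * action k U)).map per, Measure.isProbabilityMeasure_map hper.aemeasurable⟩,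
    fun F hF => ?_⟩
  show ∫ V, F V ∂(((Measure.pi fun _ => μ).tilted
    fun U : Link n L l → SU N => -(β * action k U)).map per) = _
  rw [integral_map hper.aemeasurable hF.aestronglyMeasurable, integral_tilted]
  unfold expect
  rw [← integral_div]
  refine integral_congr_ae (Filter.Eventually.of_forall fun U => ?_)
  simp only [smul_eq_mul]
  ring

/-- existence of the thermodynamic limit -/
lemma exists_limit (μ : Measure (SU N)) [IsProbabilityMeasure μ] (k : ℕ) (β : ℝ)
    (hC : Cau μ k β l) : ∃ ν : Measure (LinkZ l → SU N), IsLimit k μ β ν := by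
  have hP : ∀ p : ℕ × ℕ, ∃ P : ProbabilityMeasure (LinkZ l → SU N),
      ∀ F : (LinkZ l → SU N) → ℝ, Continuous F →
        ∫ V, F V ∂(P : Measure (LinkZ l → SU N)) =
          expect μ k β (fun U : Link (2 * (p.1 + 1)) (2 * (p.2 + 1)) l → SU N => F (per U)) :=
    fun p => exists_law μ _ _ k β
  choose P hP using hP
  have hint : ∀ {ι : Type} {f : Filter ι} {Q : ι → ProbabilityMeasure (LinkZ l → SU N)}
      {ν : ProbabilityMeasure (LinkZ l → SU N)}, Tendsto Q f (𝓝 ν) →
      ∀ F : (LinkZ l → SU N) → ℝ, Continuous F →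
        Tendsto (fun i => ∫ V, F V ∂(Q i : Measure (LinkZ l → SU N))) f
          (𝓝 (∫ V, F V ∂(ν : Measure (LinkZ l → SU N)))) := by
    intro ι f Q ν hQ F hF
    have h1 := (ProbabilityMeasure.tendsto_iff_forall_integral_tendsto.1 hQ)
      (BoundedContinuousFunction.mkOfCompact ⟨F, hF⟩)
    simpa only [BoundedContinuousFunction.mkOfCompact_apply, ContinuousMap.coe_mk] using h1
  obtain ⟨ν, s, hs, hlim⟩ := CompactSpace.tendsto_subseq fun j : ℕ => P (j, j)
  have hs' := hs.tendsto_atTop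
  have hmain : Tendsto P atTop (𝓝 ν) := by
    refine tendsto_of_subseq_tendsto fun ns hns => ?_
    obtain ⟨ν', r, hr, hlim'⟩ := CompactSpace.tendsto_subseq fun j : ℕ => P (ns j)
    refine ⟨r, ?_⟩
    have hns' : Tendsto (fun j => ns (r j)) atTop atTop := hns.comp hr.tendsto_atTop
    have heq : (ν' : Measure (LinkZ l → SU N)) = ν := by
      refine Run7.h182.Unq.ext_local fun F hF hloc => ?_
      obtain ⟨I, hI⟩ := hloc
      -- a bound
      obtain ⟨C, hCb⟩ : ∃ C : ℝ, 0 < C ∧ ∀ V, |F V| ≤ C := by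
        obtain ⟨C, hC⟩ := isCompact_univ.exists_bound_of_continuousOn (f := F) hF.continuousOn
        exact ⟨|C| + 1, by positivity, fun V =>
          (hC V (Set.mem_univ _)).trans ((le_abs_self C).trans (by linarith))⟩
      -- the window
      obtain ⟨R, hR⟩ : ∃ R : ℕ, ∀ e ∈ I, |e.2.1| ≤ (R : ℤ) ∧ |e.2.2.1| ≤ (R : ℤ) := by
        refine ⟨I.sup fun e => max e.2.1.natAbs e.2.2.1.natAbs, fun e he => ?_⟩
        have h1 := Finset.le_sup (f := fun e : LinkZ l => max e.2.1.natAbs e.2.2.1.natAbs) he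
        simp only [max_le_iff] at h1
        rw [Int.abs_eq_natAbs, Int.abs_eq_natAbs]
        exact ⟨by exact_mod_cast h1.1, by exact_mod_cast h1.2⟩
      have hloc' : ∀ V V' : LinkZ l → SU N,
          (∀ e : LinkZ l, |e.2.1| ≤ R → |e.2.2.1| ≤ R → V e = V' e) → F V = F V' :=
        fun V V' h => hI V V' fun e he => h e (hR e he).1 (hR e he).2
      have l1 := hint hlim F hF
      have l2 := hint hlim' F hF
      simp only [hP _ F hF, Function.comp_apply] at l1 l2
      refine eq_of_forall_dist_le fun ε hε => ?_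
      obtain ⟨n₀, hn₀⟩ := hC R (ε / C) (div_pos hε hCb.1)
      have l3 := (l2.sub l1).abs
      rw [Real.dist_eq]
      refine le_of_tendsto l3 ?_
      have m1 := (tendsto_fst.comp (by rw [← prod_atTop_atTop_eq] at hns'; exact hns' :
        Tendsto (fun j => ns (r j)) atTop (atTop ×ˢ atTop))).eventually_ge_atTop n₀
      have m2 := (tendsto_snd.comp (by rw [← prod_atTop_atTop_eq] at hns'; exact hns' :
        Tendsto (fun j => ns (r j)) atTop (atTop ×ˢ atTop))).eventually_ge_atTop n₀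
      filter_upwards [m1, m2, hs'.eventually_ge_atTop n₀] with j j1 j2 j3
      have h3 := hn₀ (fun V => F V / C) (hF.div_const _) (fun V => by
        rw [abs_div, abs_of_pos hCb.1, div_le_one hCb.1]; exact hCb.2 V)
        (fun V V' h => by simp only [hloc' V V' h]) _ _ _ _ j1 j2 j3 j3
      have e1 : ∀ (a b : ℕ) [NeZero a] [NeZero b],
          expect μ k β (fun U : Link a b l → SU N => F (per U) / C) =
            expect μ k β (fun U : Link a b l → SU N => F (per U)) / C := by
        intro a b _ _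
        have e2 : ∀ U : Link a b l → SU N, F (per U) / C * Real.exp (-(β * action k U)) =
            F (per U) * Real.exp (-(β * action k U)) / C := fun U => by ring
        unfold expect
        simp only [e2, integral_div]
        ring
      rw [e1, e1, ← sub_div, abs_div, abs_of_pos hCb.1, div_le_div_iff_of_pos_right hCb.1] at h3
      exact h3
    have heq' : ν' = ν := Subtype.ext heq
    rw [← heq']
    exact hlim'
  refine ⟨ν, ⟨inferInstance, fun F hF => ?_⟩⟩
  have h1 := hint hmain F hF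
  simpa only [hP _ F hF] using h1

end

/-- **The thermodynamic limit exists** for all large `β`. -/
theorem limit_exists (N l k : ℕ) [NeZero l] (hN : 2 ≤ N) (hk : Nat.Coprime k N)
    [MeasurableSpace (SU N)] [BorelSpace (SU N)] (μ : Measure (SU N)) [IsProbabilityMeasure μ]
    [μ.IsHaarMeasure] : ∃ β₀ : ℝ, ∀ β : ℝ, β₀ ≤ β →
      ∃ ν : Measure (LinkZ l → SU N), IsLimit k μ β ν := by
  haveI : NeZero N := ⟨by omega⟩
  letI : MeasurableSpace (S6 N) := borel _
  haveI : BorelSpace (S6 N) := ⟨rfl⟩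
  haveI := mu6_prob μ
  haveI := mu6_haar μ
  haveI := Pool.Agent.Run7.h897.ST.right_inv'' (mu6 μ)
  haveI := Pool.Agent.Run7.h897.ST.inv_inv'' (mu6 μ)
  obtain ⟨P, Q, hPQ⟩ := Pool.Agent.Run7.h871.TP.exists_twPair N hk
  have hr0 : 0 < TW.rate l N := by
    unfold TW.rate
    have := Real.arsinh_pos_iff.2 (Pool.Agent.Run7.h897.TW.sin_pos' hN l)
    linarith
  obtain ⟨m, hm0, hm1⟩ := exists_between hr0
  obtain ⟨a0, ha0, s, hs0, hs, hsm, β2, hβ2⟩ :=
    Pool.Agent.Run7.h871.TC.crit (mu6 μ) hN l hPQ hm0 hm1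
  refine ⟨β2, fun β hβ => ?_⟩
  exact exists_limit μ k β (cau μ (Pool.Agent.Run7.h871.UP.zc_cn β) ha0 hs0 hs (hβ2 β hβ))

end Run7.h630.WL
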