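import Pool.Agent.Run7.h4.YM.Defs

/-!
# The thermodynamic limit and the Wilson loops
-/

open MeasureTheory Filter Topology

namespace Run7.h630.WL

open Run7.h4.YM

/-- the sites of the lattice `Z² x (Z/l)²` -/
abbrev SiteZ (l : ℕ) : Type := ℤ × ℤ × ZMod l × ZMod l

/-- the positively oriented links: `(i, x)` joins `x` to `x + dirZ i` -/
abbrev LinkZ (l : ℕ) : Type := Fin 4 × SiteZ l

/-- the unit vectors -/
def dirZ {l : ℕ} : Fin 4 → SiteZ l := ![(1, 0, 0, 0), (0, 1, 0, 0), (0, 0, 1, 0), (0, 0, 0, 1)]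

/-- the periodic extension of a configuration on a torus -/
def per {N n L l : ℕ} (U : Link n L l → SU N) : LinkZ l → SU N :=
  fun e => U (e.1, ((e.2.1 : ℤ) : ZMod n), ((e.2.2.1 : ℤ) : ZMod L), e.2.2.2)

/-- `ν` is the thermodynamic limit: the weak limit of the theories on all tori
`Z/2p x Z/2q x (Z/l)²` as `p → ∞` and `q → ∞` independently of each other -/
structure IsLimit {N l : ℕ} [NeZero l] [MeasurableSpace (SU N)] (k : ℕ) (μ : Measure (SU N))
    (β : ℝ) (ν : Measure (LinkZ l → SU N)) : Prop where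
  prob : IsProbabilityMeasure ν
  lim : ∀ F : (LinkZ l → SU N) → ℝ, Continuous F →
    Tendsto (fun p : ℕ × ℕ => expect μ k β
      fun U : Link (2 * (p.1 + 1)) (2 * (p.2 + 1)) l → SU N => F (per U)) atTop
      (𝓝 (∫ V, F V ∂ν))

/-- the product of the link variables along the straight path of `m` links in the direction `i`
which starts at `x` -/
def side {N l : ℕ} (V : LinkZ l → SU N) (i : Fin 4) (x : SiteZ l) (m : ℕ) : SU N :=
  ((List.range m).map fun t : ℕ => V (i, x + t • dirZ i)).prod

/-- the product of the link variables around the rectangle with the corner `x` and the sides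
`T`, `R` in the directions `0`, `1` -/
def rect {N l : ℕ} (V : LinkZ l → SU N) (x : SiteZ l) (T R : ℕ) : SU N :=
  side V 0 x T * side V 1 (x + T • dirZ 0) R * (side V 0 (x + R • dirZ 1) T)⁻¹ *
    (side V 1 x R)⁻¹

end Run7.h630.WL
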